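import Pool.Agent.Helper88.TD.Main

/-!
# The Bogomolov-Miyaoka-Yau inequality is inherited by branched coverings

Let `M` be a closed symplectic four-manifold and `S i` finitely many symplectic surfaces with
`(S i)² ≤ 0`, meeting positively in ordinary multiple points. Let `b ≥ 3` be a bound for the number
of negative squares of the intersection form on the span of their classes, and suppose that
`(b - 3) * num i ≤ 8 * (g i - 1 - |(S i)²|)`, where `num i` is the number of multiple points on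
`S i`. Then for every covering `Y` of degree `d` of the blown up `M` branched along the `S i` and
the exceptional spheres, `3 c₂(Y) - c₁(Y)² ≥ d (3 c₂(M) - c₁(M)²)`, and equality implies that all
`S i` along which the covering is branched are tori of square zero.
-/

namespace Pool.Agent.Results.MP_872606_gt.BranchedInheritance

open Pool.Agent.Helper88.TD

/-- The difference `3 c₂ - c₁²` per degree does not decrease under coverings branched along
symplectic surfaces of nonpositive square. -/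
theorem result (C : Config) (b : ℕ) (hb3 : 3 ≤ b) (hb : C.NegIndexLe b)
    (hS : ∀ i, C.Q (C.S i) (C.S i) ≤ 0)
    (hg : ∀ i, ((b : ℝ) - 3) * C.num i ≤ 8 * (C.g i - 1 + C.Q (C.S i) (C.S i)))
    (α : C.ι → ℝ) (hα0 : ∀ i, 0 ≤ α i) (hα1 : ∀ i, α i < 1) (β : C.P₃ → ℝ) :
    3 * (C.e : ℝ) - C.Q C.K C.K ≤ 3 * C.c2 α β - C.c1sq α β ∧
    (3 * (C.e : ℝ) - C.Q C.K C.K = 3 * C.c2 α β - C.c1sq α β →
      (∀ i, 0 < α i → C.g i = 1 ∧ C.Q (C.S i) (C.S i) = 0) ∧
      ∀ p : C.P₃, ∑ i ∈ C.on p.1, α i + 2 * β p = 4) := by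
  have h := C.defect b hb3 hb hS α hα0 β
  have hb3' : (0 : ℝ) ≤ (b : ℝ) - 3 := by
    have : (3 : ℝ) ≤ b := by exact_mod_cast hb3
    linarith
  have t1 : ∀ i, 0 ≤ 2 * α i * (C.g i - 1 + C.Q (C.S i) (C.S i) - (b - 3) / 8 * C.num i) := by
    intro i
    refine mul_nonneg (by linarith [hα0 i]) ?_
    have := hg i
    linarith
  have t2 : ∀ i, 0 ≤ C.q i * α i ^ 2 := fun i => mul_nonneg (C.q_nonneg hS i) (sq_nonneg _)
  have t3 : ∀ i, 0 ≤ ((b : ℝ) - 3) / 4 * C.num i * (α i * (1 - α i)) := fun i =>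
    mul_nonneg (mul_nonneg (by linarith) (Nat.cast_nonneg _))
      (mul_nonneg (hα0 i) (by linarith [hα1 i]))
  have s1 : ∀ i ∈ Finset.univ,
      0 ≤ (2 * α i * (C.g i - 1 + C.Q (C.S i) (C.S i) - (b - 3) / 8 * C.num i) +
        C.q i * α i ^ 2 + (b - 3) / 4 * C.num i * (α i * (1 - α i))) := fun i _ => by
    have := t1 i
    have := t2 i
    have := t3 i
    linarith
  have s2 : ∀ p ∈ (Finset.univ : Finset C.P₃), 0 ≤ (C.A α p.1 / 2 + β p - 2) ^ 2 :=
    fun p _ => sq_nonneg _
  have n1 := Finset.sum_nonneg s1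
  have n2 := Finset.sum_nonneg s2
  refine ⟨by linarith, fun heq => ⟨fun i hi => ?_, fun p => ?_⟩⟩
  · have z1 := (Finset.sum_eq_zero_iff_of_nonneg s1).mp (by linarith) i (Finset.mem_univ i)
    have z2 : C.q i * α i ^ 2 = 0 := by linarith [t1 i, t2 i, t3 i]
    have z3 : ((b : ℝ) - 3) / 4 * C.num i * (α i * (1 - α i)) = 0 := by
      linarith [t1 i, t2 i, t3 i]
    have z4 : 2 * α i * (C.g i - 1 + C.Q (C.S i) (C.S i) - (b - 3) / 8 * C.num i) = 0 := by
      linarith [t1 i, t2 i, t3 i]
    have q0 : C.q i = 0 := by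
      rcases mul_eq_zero.mp z2 with h | h
      · exact h
      · exact absurd h (pow_ne_zero 2 hi.ne')
    have q1 : C.Q (C.S i) (C.S i) = 0 := by
      have : C.q i = - C.Q (C.S i) (C.S i) := rfl
      linarith
    have m0 : ((b : ℝ) - 3) / 4 * C.num i = 0 := by
      rcases mul_eq_zero.mp z3 with h | h
      · exact h
      · exact absurd h (mul_pos hi (by linarith [hα1 i])).ne'
    have g0 : C.g i - 1 + C.Q (C.S i) (C.S i) - (b - 3) / 8 * C.num i = 0 := by
      rcases mul_eq_zero.mp z4 with h | h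
      · exact absurd h (by linarith)
      · exact h
    refine ⟨?_, q1⟩
    have g1 : (C.g i : ℝ) = 1 := by
      rw [q1] at g0
      linarith
    exact_mod_cast g1
  · have z1 := (Finset.sum_eq_zero_iff_of_nonneg s2).mp (by linarith) p (Finset.mem_univ p)
    have z2 : C.A α p.1 / 2 + β p - 2 = 0 := pow_eq_zero_iff (two_ne_zero) |>.mp z1
    have z3 : C.A α p.1 = ∑ i ∈ C.on p.1, α i := rfl
    rw [z3] at z2
    linarith

end Pool.Agent.Results.MP_872606_gt.BranchedInheritance
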